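import Pool.Agent.V11230.Recol3
import Pool.Agent.H622R2.MatGraph
import Pool.Agent.H692R2.FinGraph
import Pool.Agent.H598R2.Collapse

/-!
# Optimal-colouring reconfiguration is NP-hard on bipartite graphs with ten colours

The reduction is from 3SAT.  The graph has a core: vertices `x_1, …, x_10` on one side and
`y_2, …, y_10` on the other side with `x_i y_j` adjacent for `i ≠ j`, the index being the initial
colour.  For each clause there are two clause vertices, `z⁰` with list `{1,2,3,4}` and `z¹` with list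
`{1,5,6,7}`, initially of colour `1`; together they block the colour `1` for the core.  As long as
one `z⁰` and one `z¹` have the colour `1` the core is frozen.  The last `z⁰` can lose the colour `1`
only when for each clause one of its three literal vertices has the colour `8` or `9` which says
that the literal is true, because literal vertices cannot use the colour `1` as long as one `z¹`
has it; and the same holds with `z⁰` and `z¹` exchanged.
So if the formula is not satisfiable, then all reachable colourings use all ten colours, and if it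
is satisfiable, then one can free the colour `1`, recolour `x_10` with it, and then recolour one
side with `10` and the other side with `1`.
-/

set_option autoImplicit false

namespace Pool.Agent.NPC.V11230.RC

open Pool.Agent.NPC Pool.Agent.H622R2 Pool.Agent.H692R2

/-- An instance: a graph with vertex set `{0, …, n - 1}` (encoded by its adjacency matrix), the
number `k`, and the list of the colours of the vertices. -/
abbrev Inst : Type := FinGraph × ℕ × List ℕ

/-- The colouring given by the list of colours. -/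
def Inst.col (I : Inst) : Fin I.1.n → ℕ := fun v => I.2.2.getD v 0

/-- The valid instances: the graph has an edge, the list has one entry for each vertex, and it is a
`k`-colouring. -/
def Valid (I : Inst) : Prop :=
  (∃ v w, I.1.graph.Adj v w) ∧ I.2.2.length = I.1.n ∧ IsCol I.1.graph I.2.1 I.col

/-- The value `χ(G, k, f₀)`. -/
noncomputable def Inst.opt (I : Inst) : ℕ∞ := optCol I.1.graph I.2.1 I.col

/-- The adjacency matrix of the graph of the reduction. -/
def mx (φ : List Cl) : List (List Bool) := mat (labs φ) adjL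

/-- The label of a vertex. -/
def labOf (φ : List Cl) (v : Fin (mx φ).length) : Lab :=
  (labs φ)[v.1]'(lt_of_lt_of_eq v.2 (mat_length _ _))

theorem adjL_irrefl (a : Lab) : adjL a a = false := by
  rw [Bool.eq_false_iff]
  intro h
  exact (adj_sides h).2 (adj_sides h).1

theorem sit (φ : List Cl) : Sit (Fin (mx φ).length) (matGraph (mx φ)) φ (labOf φ) := by
  refine ⟨fun v => List.getElem_mem _, fun a ha => ?_, fun v w => ?_⟩
  · obtain ⟨i, hi, rfl⟩ := List.getElem_of_mem ha
    exact ⟨⟨i, lt_of_lt_of_eq hi (mat_length _ _).symm⟩, rfl⟩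
  · have hv : v.1 < (labs φ).length := lt_of_lt_of_eq v.2 (mat_length _ _)
    have hw : w.1 < (labs φ).length := lt_of_lt_of_eq w.2 (mat_length _ _)
    simp only [matGraph, mx, entry_mat _ _ _ _ hv hw, entry_mat _ _ _ _ hw hv, labOf]
    constructor
    · exact fun h => h.2
    · intro h
      refine ⟨fun hvw => ?_, h⟩
      subst hvw
      rw [adjL_irrefl] at h
      simp at h

/-- The reduction. -/
noncomputable def red (φ : List Cl) : Inst :=
  (⟨(mx φ).length, matGraph (mx φ)⟩, 10, (labs φ).map col0)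

theorem red_col (φ : List Cl) : (red φ).col = fun v => col0 (labOf φ v) := by
  funext v
  have hv : v.1 < (labs φ).length := lt_of_lt_of_eq v.2 (mat_length _ _)
  show ((labs φ).map col0).getD v.1 0 = _
  rw [List.getD_eq_getElem?_getD, List.getElem?_map, List.getElem?_eq_getElem hv]
  rfl

theorem red_valid (φ : List Cl) : Valid (red φ) := by
  refine ⟨?_, ?_, ?_⟩
  · obtain ⟨a, ha⟩ := (sit φ).exX (j := 1) (by norm_num) (by norm_num)
    obtain ⟨b, hb⟩ := (sit φ).exY (j := 2) (by norm_num) (by norm_num)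
    refine ⟨a, b, ((sit φ).adj a b).2 (Or.inl ?_)⟩
    rw [ha, hb]
    decide
  · simp [red, mx, mat]
  · rw [red_col]
    exact (sit φ).isCol col0_ok1 col0_ok2

theorem red_sat {φ : List Cl} (h : SAT3 φ) : (red φ).opt = 2 := by
  unfold Inst.opt
  rw [red_col]
  exact (sit φ).opt_sat h

theorem red_unsat {φ : List Cl} (hne : φ ≠ []) (hb : Bounded3 φ) (h : ¬ SAT3 φ) :
    (red φ).opt = 10 := by
  unfold Inst.opt
  rw [red_col]
  exact (sit φ).opt_unsat hne hb h

/-! ### Polynomial time -/

theorem poly_labs : Poly labs := by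
  unfold labs
  have hid : Poly (fun φ : List Cl => φ) := Poly.id
  have hlen : UPoly (fun φ : List Cl => φ.length) := UPoly.length hid
  have hr : Poly (fun φ : List Cl => List.range φ.length) := UPoly.range hlen
  have h3 : Poly (fun φ : List Cl => List.range (3 * φ.length)) :=
    UPoly.range (UPoly.mul (UPoly.const 3) hlen)
  have hm : ∀ c : ℕ, Poly (fun φ : List Cl =>
      (List.range φ.length).map (fun C => ((c, C, 0, 0, 0) : Lab))) := fun c =>
    Poly.map (F := fun _ (C : ℕ) => ((c, C, 0, 0, 0) : Lab)) hr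
      (Poly.pair (Poly.const _) (Poly.pair (Poly.snd Poly.id) (Poly.const _)))
  refine Poly.append (Poly.const _) (Poly.append (Poly.const _) (Poly.append ?_
    (Poly.append (hm 3) (Poly.append (hm 4) ?_))))
  · exact Poly.map (F := fun _ (C : ℕ) => ((2, C, 0, 0, 0) : Lab)) h3
      (Poly.pair (Poly.const _) (Poly.pair (Poly.snd Poly.id) (Poly.const _)))
  · have hlit : ∀ (t l : ℕ) (x : List Cl × (Cl × ℕ) → Lit ℕ), Poly x →
        Poly (fun p : List Cl × (Cl × ℕ) => lit t p.2.2 l (x p)) := by
      intro t l x hx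
      unfold lit
      have hb : Poly (fun p : List Cl × (Cl × ℕ) => decide ((x p).1 = true)) :=
        (Poly.fst hx).congr fun p => by simp
      exact Poly.pair (Poly.const _) (Poly.pair (Poly.snd (Poly.snd Poly.id))
        (Poly.pair (Poly.const _) (Poly.pair (Poly.snd hx)
          (Poly.ite hb (Poly.const _) (Poly.const _)))))
    have hc : Poly (fun p : List Cl × (Cl × ℕ) => p.2.1) := Poly.fst (Poly.snd Poly.id)
    have h0 : Poly (fun p : List Cl × (Cl × ℕ) => p.2.1.1) := Poly.fst hc
    have h1 : Poly (fun p : List Cl × (Cl × ℕ) => p.2.1.2.1) := Poly.fst (Poly.snd hc)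
    have h2 : Poly (fun p : List Cl × (Cl × ℕ) => p.2.1.2.2) := Poly.snd (Poly.snd hc)
    exact Poly.flatMap (F := fun _ (p : Cl × ℕ) => [lit 5 p.2 0 p.1.1, lit 5 p.2 1 p.1.2.1,
      lit 5 p.2 2 p.1.2.2, lit 6 p.2 0 p.1.1, lit 6 p.2 1 p.1.2.1, lit 6 p.2 2 p.1.2.2])
      (Poly.zipIdx hid)
      (Poly.cons (hlit 5 0 _ h0) (Poly.cons (hlit 5 1 _ h1) (Poly.cons (hlit 5 2 _ h2)
        (Poly.cons (hlit 6 0 _ h0) (Poly.cons (hlit 6 1 _ h1) (Poly.cons (hlit 6 2 _ h2)
          (Poly.const [])))))))

theorem poly_adjL {α : Type} [TEnc α] {f g : α → Lab} (hf : Poly f) (hg : Poly g) :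
    Poly (fun a => adjL (f a) (g a)) := by
  unfold adjL
  have a1 := Poly.fst hf
  have ai := Poly.fst (Poly.snd hf)
  have al := Poly.fst (Poly.snd (Poly.snd hf))
  have ax := Poly.fst (Poly.snd (Poly.snd (Poly.snd hf)))
  have ae := Poly.snd (Poly.snd (Poly.snd (Poly.snd hf)))
  have b1 := Poly.fst hg
  have bi := Poly.fst (Poly.snd hg)
  have c : ∀ n : ℕ, Poly (fun _ : α => n) := fun n => Poly.const n
  have A := fun n => Poly.decide_eq a1 (c n)
  have B := fun n => Poly.decide_eq b1 (c n)
  have I := fun n => Poly.not (Poly.decide_eq ai (c n))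
  exact Poly.or (Poly.or (Poly.or (Poly.or (Poly.or (Poly.or (Poly.or (Poly.or (Poly.or (Poly.or
    (Poly.and (Poly.and (A 0) (B 1)) (Poly.not (Poly.decide_eq ai bi)))
    (Poly.and (Poly.and (Poly.and (A 0) (B 2)) (I 8)) (I 9)))
    (Poly.and (Poly.and (A 0) (B 3)) (Poly.decide_le (c 5) ai)))
    (Poly.and (Poly.and (Poly.and (Poly.and (Poly.and (A 0) (B 4)) (I 1)) (I 5)) (I 6)) (I 7)))
    (Poly.and (Poly.and (Poly.and (A 5) (B 1)) (Poly.not (Poly.decide_eq bi
      (Poly.add (c 2) al)))) (Poly.not (Poly.decide_eq bi ae))))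
    (Poly.and (Poly.and (Poly.and (A 6) (B 1)) (Poly.not (Poly.decide_eq bi
      (Poly.add (c 5) al)))) (Poly.not (Poly.decide_eq bi ae))))
    (Poly.and (Poly.and (Poly.or (A 5) (A 6)) (B 2)) (Poly.decide_eq ax bi)))
    (Poly.and (Poly.and (A 5) (B 3)) (Poly.decide_eq ai bi)))
    (Poly.and (A 5) (B 4)))
    (Poly.and (Poly.and (A 6) (B 4)) (Poly.decide_eq ai bi)))
    (Poly.and (A 6) (B 3))

theorem poly_mx : Poly mx := by
  unfold mx mat
  refine Poly.map (F := fun φ u => (labs φ).map fun v => adjL u v) poly_labs ?_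
  refine Poly.map (l := fun p : List Cl × Lab => labs p.1)
    (F := fun (p : List Cl × Lab) v => adjL p.2 v) (poly_labs.comp (Poly.fst Poly.id)) ?_
  exact poly_adjL (Poly.snd (Poly.fst Poly.id)) (Poly.snd Poly.id)

theorem poly_entry {α : Type} [TEnc α] {M : α → List (List Bool)} {i j : α → ℕ} (hM : Poly M)
    (hi : Poly i) (hj : Poly j) : Poly (fun a => entry (M a) (i a) (j a)) :=
  Poly.getD (l := fun a => (M a).getD (i a) []) (Poly.getD hM hi (Poly.const _)) hj
    (Poly.const false)

theorem poly_matGraph {α : Type} [TEnc α] {M : α → List (List Bool)} (hM : Poly M) :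
    Poly (fun a => (⟨(M a).length, matGraph (M a)⟩ : FinGraph)) := by
  refine poly_finGraph (N := fun a => (M a).length) (b := fun a i j =>
    !(decide (i = j)) && (entry (M a) i j || entry (M a) j i)) (UPoly.length hM) ?_ ?_
  · have hM' : Poly (fun p : (α × ℕ) × ℕ => M p.1.1) := hM.comp (Poly.fst (Poly.fst Poly.id))
    have hi : Poly (fun p : (α × ℕ) × ℕ => p.1.2) := Poly.snd (Poly.fst Poly.id)
    have hj : Poly (fun p : (α × ℕ) × ℕ => p.2) := Poly.snd Poly.id
    exact Poly.and (Poly.not (Poly.decide_eq hi hj))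
      (Poly.or (poly_entry hM' hi hj) (poly_entry hM' hj hi))
  · intro a i j
    simp only [Bool.and_eq_true, Bool.not_eq_true', decide_eq_false_iff_not, Bool.or_eq_true,
      matGraph, ne_eq, Fin.ext_iff]

theorem poly_col0 : Poly col0 := by
  unfold col0
  have a1 : Poly (fun a : Lab => a.1) := Poly.fst Poly.id
  have ai : Poly (fun a : Lab => a.2.1) := Poly.fst (Poly.snd Poly.id)
  have al : Poly (fun a : Lab => a.2.2.1) := Poly.fst (Poly.snd (Poly.snd Poly.id))
  have c : ∀ n : ℕ, Poly (fun _ : Lab => n) := fun n => Poly.const n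
  have A := fun n => Poly.decide_eq a1 (c n)
  exact Poly.ite (A 2) (c 8) (Poly.ite (A 3) (c 1) (Poly.ite (A 4) (c 1)
    (Poly.ite (A 5) (Poly.add (c 2) al) (Poly.ite (A 6) (Poly.add (c 5) al) ai))))

theorem poly_red : Poly red := by
  unfold red
  refine Poly.pair (poly_matGraph poly_mx) (Poly.pair (Poly.const 10) ?_)
  exact Poly.map (F := fun _ a => col0 a) poly_labs (poly_col0.comp (Poly.snd Poly.id))

/-! ### Hardness -/

theorem hardPr_opt : HardPr (fun I : Inst × ℕ => (Valid I.1 ∧ I.1.1.graph.IsBipartite ∧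
    I.1.2.1 = 10 ∧ (I.1.opt = 2 ∨ I.1.opt = 10)) ∧ I.2 = 2) (fun I => I.1.opt ≤ I.2) := by
  refine hardPr_SAT3b.trans (f := fun φ => (red φ, 2)) (Poly.pair poly_red (Poly.const 2)) ?_ ?_
  · rintro φ ⟨_, hb, hne⟩
    refine ⟨⟨red_valid φ, (sit φ).bip, rfl, ?_⟩, rfl⟩
    by_cases h : SAT3 φ
    · exact Or.inl (red_sat h)
    · exact Or.inr (red_unsat hne hb h)
  · rintro φ ⟨_, hb, hne⟩
    constructor
    · intro h
      show (red φ).opt ≤ ((2 : ℕ) : ℕ∞)
      rw [red_sat h]
      rfl
    · intro h
      by_contra hs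
      have h' : (red φ).opt ≤ ((2 : ℕ) : ℕ∞) := h
      rw [red_unsat hne hb hs] at h'
      exact absurd h' (by decide)

end Pool.Agent.NPC.V11230.RC

namespace Pool.Agent.Results.MP_391ee8_lc.BipartiteNPHard

open Pool.Agent.NPC Pool.Agent.NPC.V11230.RC

/-- **Optimal-colouring reconfiguration is `NP`-hard on perfect graphs**, even on bipartite graphs
with `k = 10` colours, and even to distinguish the values `2` and `10`. -/
theorem result :
    (∀ (V : Type) [Finite V] (G : SimpleGraph V), G.IsBipartite → Perfect G) ∧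
    (∀ L : Set (List Bool), InNP L → ∃ f : List Bool → Inst,
      PolyTime (fun x => bits (f x)) ∧
      (∀ x, Valid (f x) ∧ (f x).1.graph.IsBipartite ∧ Perfect (f x).1.graph ∧ (f x).2.1 = 10) ∧
      ∀ x, (x ∈ L → (f x).opt = 2) ∧ (x ∉ L → (f x).opt = 10)) ∧
    (∀ A : List Bool → List Bool, PolyTime A →
      (∀ (I : Inst) (m : ℕ), Valid I → I.1.graph.IsBipartite → I.2.1 = 10 → I.opt = m →
        A (bits I) = bits m) →
      ∀ L : Set (List Bool), InNP L → InP L) := by
  refine ⟨fun V _ G h => perfect_of_bipartite h, fun L hL => ?_, fun A hA h => ?_⟩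
  · obtain ⟨f, hf, hpr, hfL⟩ := hardPr_opt L hL
    refine ⟨fun x => (f x).1, PC.toPolyTime_bits (Poly.fst Poly.id) f hf, fun x => ?_,
      fun x => ?_⟩
    · obtain ⟨⟨h1, h2, h3, _⟩, _⟩ := hpr x
      exact ⟨h1, h2, perfect_of_bipartite h2, h3⟩
    · obtain ⟨⟨_, _, _, h4⟩, h5⟩ := hpr x
      have h6 := hfL x
      simp only [h5] at h6
      rcases h4 with h4 | h4
      · refine ⟨fun _ => h4, fun hx => absurd (h6.2 ?_) hx⟩
        rw [h4]
        rfl
      · refine ⟨fun hx => ?_, fun _ => h4⟩
        have h7 := h6.1 hx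
        rw [h4] at h7
        exact absurd h7 (by decide)
  · refine H598R2.collapse_fun (c := fun I : Inst => I.opt.toNat) hardPr_opt ?_ hA ?_
    · rintro I ⟨⟨_, _, _, h4⟩, h5⟩
      rw [h5]
      rcases h4 with h4 | h4
      · rw [h4]
        exact ⟨fun _ => le_rfl, fun _ => le_rfl⟩
      · rw [h4]
        exact ⟨fun hh => absurd hh (by decide), fun hh => absurd hh (by decide)⟩
    · rintro I ⟨⟨h1, h2, h3, h4⟩, h5⟩
      refine h _ _ h1 h2 h3 ?_
      rcases h4 with h4 | h4 <;> rw [h4] <;> rfl

end Pool.Agent.Results.MP_391ee8_lc.BipartiteNPHard
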